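import Pool.Agent.H66.ZK.Stm

/-! # Project ZK, part SCB: the lines through the third point of the tangent -/

set_option autoImplicit false

open Pool.Agent.Q35.TT Pool.Agent.Q35.ZC Pool.Agent.H66.TK
open Polynomial

namespace Pool.Agent.H66.ZK

section SCB

variable {F : Type} [Field F]

theorem scb_qp (θ : F × (Fin 4 → F)) (x : F) (h2 : (2 : F) ≠ 0) (hθ : θ.1 ≠ 0) :
    gp θ x ^ 2 - qp θ = C ((θ.2 0 / (2 * θ.1)) ^ 2 - x - θ.2 1) * X ^ 2 +
      C (-(θ.2 0 * x) / (2 * θ.1 ^ 2) - θ.2 2) * X ^ 3 + C ((x / (2 * θ.1)) ^ 2 - θ.2 3) * X ^ 4 := by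
  obtain ⟨w, q⟩ := θ
  simp only at hθ ⊢
  have e0 : C (-w) = -(C w : F[X]) := by simp
  have h1 : (C (-(q 0) / (2 * w)) : F[X]) * (2 * C w) = -C (q 0) := by
    rw [show (2 : F[X]) = C 2 from (map_ofNat C 2).symm, ← C_mul, ← C_mul, ← C_neg]
    congr 1
    field_simp
  have h3 : (C (x / (2 * w)) : F[X]) * (2 * C w) = C x := by
    rw [show (2 : F[X]) = C 2 from (map_ofNat C 2).symm, ← C_mul, ← C_mul]
    congr 1
    field_simp
  have h4 : (C (-(q 0 * x) / (2 * w ^ 2)) : F[X]) =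
      2 * (C (-(q 0) / (2 * w)) * C (x / (2 * w))) := by
    rw [show (2 : F[X]) = C 2 from (map_ofNat C 2).symm, ← C_mul, ← C_mul]
    congr 1
    field_simp
  have h5 : (C (q 0 / (2 * w)) : F[X]) = - C (-(q 0) / (2 * w)) := by
    rw [← C_neg]
    congr 1
    field_simp
  rw [gp, qp]
  simp only [C_sub, C_pow, e0]
  rw [h4, h5]
  linear_combination (-X : F[X]) * h1 + (-X ^ 2 : F[X]) * h3

theorem scb_coef {a b c a' b' c' : F}
    (h : C a * X ^ 2 + C b * X ^ 3 + C c * X ^ 4 = (C a' * X ^ 2 + C b' * X ^ 3 + C c' * X ^ 4 : F[X])) :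
    a = a' ∧ b = b' ∧ c = c' := by
  refine ⟨?_, ?_, ?_⟩
  · have := congrArg (fun p => coeff p 2) h
    simpa [coeff_C_mul, coeff_X_pow] using this
  · have := congrArg (fun p => coeff p 3) h
    simpa [coeff_C_mul, coeff_X_pow] using this
  · have := congrArg (fun p => coeff p 4) h
    simpa [coeff_C_mul, coeff_X_pow] using this

/-- the cubic on the line through `T` -/
theorem scb_cub (α : Fin 3 → F) (β : Fin 4 → F) (w t s lam p q : F)
    (h0 : cub α β w ![1, t] = 0) (hs : cw α w ![1, t] * s + c1 α β w ![1, t] = 0) :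
    cub α β (lam * w + (p * s + q)) ![lam, lam * t + p] =
      lam ^ 2 * (cw α w ![1, t] * q) +
      lam * (mm α β w ![1, t] s 1 * p ^ 2 + (6 * w * s + (α 1 + 2 * α 2 * t)) * (p * q) +
        3 * w * q ^ 2) +
      (nn α β s 1 * p ^ 3 + (3 * s ^ 2 + α 2) * (p ^ 2 * q) + 3 * s * (p * q ^ 2) + q ^ 3) := by
  simp only [cub, cw, c1, mm, nn, q2, q3, Matrix.cons_val_zero, Matrix.cons_val_one] at *
  linear_combination lam ^ 3 * h0 + lam ^ 2 * p * hs

theorem scb_tay (α : Fin 3 → F) (β : Fin 4 → F) (w t s : F)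
    (hs : cw α w ![1, t] * s + c1 α β w ![1, t] = 0) :
    tay (gq α β w ![1, t]) s 0 = 2 * mm α β w ![1, t] s 1 * (6 * w * s + (α 1 + 2 * α 2 * t)) -
      4 * cw α w ![1, t] * nn α β s 1 ∧
    tay (gq α β w ![1, t]) s 1 = (6 * w * s + (α 1 + 2 * α 2 * t)) ^ 2 +
      2 * mm α β w ![1, t] s 1 * (3 * w) - 4 * cw α w ![1, t] * (3 * s ^ 2 + α 2) ∧
    tay (gq α β w ![1, t]) s 2 = 2 * (6 * w * s + (α 1 + 2 * α 2 * t)) * (3 * w) -
      4 * cw α w ![1, t] * (3 * s) ∧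
    tay (gq α β w ![1, t]) s 3 = (3 * w) ^ 2 - 4 * cw α w ![1, t] := by
  obtain ⟨l, hl⟩ : ∃ l, l = cw α w ![1, t] := ⟨_, rfl⟩
  obtain ⟨c, hc⟩ : ∃ l, l = c1 α β w ![1, t] := ⟨_, rfl⟩
  have g0 : gq α β w ![1, t] 0 = (α 2 * w + β 2 + 3 * β 3 * t) ^ 2 - 4 * (c * β 3) := by
    simp [gq, hc]
  have g1 : gq α β w ![1, t] 1 = 2 * (α 1 + 2 * α 2 * t) * (α 2 * w + β 2 + 3 * β 3 * t) -
      4 * (l * β 3 + c * α 2) := by
    simp [gq, hc, hl]
  have g2 : gq α β w ![1, t] 2 = (α 1 + 2 * α 2 * t) ^ 2 +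
      2 * (3 * w) * (α 2 * w + β 2 + 3 * β 3 * t) - 4 * (l * α 2) := by
    simp [gq, hl]
  have g3 : gq α β w ![1, t] 3 = 2 * (3 * w) * (α 1 + 2 * α 2 * t) - 4 * c := by
    simp [gq, hc]
  have g4 : gq α β w ![1, t] 4 = (3 * w) ^ 2 - 4 * l := by
    simp [gq, hl]
  have hm : mm α β w ![1, t] s 1 = 3 * w * s ^ 2 + (α 1 + 2 * α 2 * t) * s +
      (α 2 * w + β 2 + 3 * β 3 * t) := by
    simp [mm]
  have hn : nn α β s 1 = s ^ 3 + α 2 * s + β 3 := by
    simp [nn]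
  rw [← hl, ← hc] at hs
  rw [← hl, hm, hn]
  refine ⟨?_, ?_, ?_, ?_⟩
  · show gq α β w ![1, t] 1 + 2 * gq α β w ![1, t] 2 * s + 3 * gq α β w ![1, t] 3 * s ^ 2 +
      4 * gq α β w ![1, t] 4 * s ^ 3 = _
    rw [g1, g2, g3, g4]
    linear_combination (-4 * (α 2 + 3 * s ^ 2)) * hs
  · show gq α β w ![1, t] 2 + 3 * gq α β w ![1, t] 3 * s + 6 * gq α β w ![1, t] 4 * s ^ 2 = _
    rw [g2, g3, g4]
    linear_combination (-12 * s) * hs
  · show gq α β w ![1, t] 3 + 4 * gq α β w ![1, t] 4 * s = _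
    rw [g3, g4]
    linear_combination (-4) * hs
  · show gq α β w ![1, t] 4 = _
    rw [g4]

theorem scb_main (α : Fin 3 → F) (β : Fin 4 → F) (w t : F) (h2 : (2 : F) ≠ 0)
    (h0 : cub α β w ![1, t] = 0) (hcw : cw α w ![1, t] ≠ 0) (hm0 : (qt α β w t).1 ≠ 0)
    (x G2 G3 G4 : F) (hG : gp (qt α β w t) x ^ 2 - qp (qt α β w t) =
      C G2 * X ^ 2 + C G3 * X ^ 3 + C G4 * X ^ 4) (k : F)
    (hk : k = -(x + 2 * (qt α β w t).1 * (3 * w)) / (4 * cw α w ![1, t])) (p q : F) :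
    4 * cw α w ![1, t] * cub α β ((k * q - nn α β (sl α β w t) 1 * p) / (qt α β w t).1 * w +
      (p * sl α β w t + q)) ![(k * q - nn α β (sl α β w t) 1 * p) / (qt α β w t).1,
        (k * q - nn α β (sl α β w t) 1 * p) / (qt α β w t).1 * t + p] =
      q * (G2 * p ^ 2 + G3 * (p * q) + G4 * q ^ 2) := by
  obtain ⟨s, hs⟩ : ∃ s, s = sl α β w t := ⟨_, rfl⟩
  have hs' : cw α w ![1, t] * s + c1 α β w ![1, t] = 0 := by
    rw [hs, sl]
    field_simp
    ring
  have hq1 : (qt α β w t).1 = mm α β w ![1, t] s 1 := by rw [hs]; rfl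
  have hq2 : (qt α β w t).2 = tay (gq α β w ![1, t]) s := by rw [hs]; rfl
  obtain ⟨t0, t1, t2, t3⟩ := scb_tay α β w t s hs'
  rw [scb_qp _ _ h2 hm0] at hG
  obtain ⟨hg2, hg3, hg4⟩ := scb_coef hG
  rw [← hg2, ← hg3, ← hg4, ← hs, scb_cub α β w t s _ p q h0 hs', hk]
  rw [hq2, t0, t1, t2, t3, hq1]
  rw [hq1] at hm0
  obtain ⟨m0, h⟩ : ∃ l, l = mm α β w ![1, t] s 1 := ⟨_, rfl⟩
  rw [← h] at hm0 ⊢
  obtain ⟨c, h⟩ : ∃ l, l = cw α w ![1, t] := ⟨_, rfl⟩
  rw [← h] at hcw ⊢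
  obtain ⟨n0, h⟩ : ∃ l, l = nn α β s 1 := ⟨_, rfl⟩
  rw [← h]
  obtain ⟨m1, h⟩ : ∃ l, l = 6 * w * s + (α 1 + 2 * α 2 * t) := ⟨_, rfl⟩
  rw [← h]
  obtain ⟨n1, h⟩ : ∃ l, l = 3 * s ^ 2 + α 2 := ⟨_, rfl⟩
  rw [← h]
  have h4 : (4 : F) ≠ 0 := by
    rw [show (4 : F) = 2 * 2 by norm_num]
    exact mul_ne_zero h2 h2
  field_simp
  ring

theorem scb_pt (α : Fin 3 → F) (β : Fin 4 → F) (w t : F) (h2 : (2 : F) ≠ 0)
    (hcw : cw α w ![1, t] ≠ 0) (hm0 : (qt α β w t).1 ≠ 0) (x k : F)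
    (hk : k = -(x + 2 * (qt α β w t).1 * (3 * w)) / (4 * cw α w ![1, t])) (τ : F) :
    ∃ μ : F, μ ≠ 0 ∧ ∀ j, ph α β w t τ ((gp (qt α β w t) x).eval τ) j =
      μ * ![-nn α β (sl α β w t) 1 / (qt α β w t).1 * w + sl α β w t,
        -nn α β (sl α β w t) 1 / (qt α β w t).1,
        -nn α β (sl α β w t) 1 / (qt α β w t).1 * t + 1] j +
      μ * τ * ![k / (qt α β w t).1 * w + 1, k / (qt α β w t).1, k / (qt α β w t).1 * t] j := by
  obtain ⟨s, hs⟩ : ∃ s, s = sl α β w t := ⟨_, rfl⟩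
  have hs' : cw α w ![1, t] * s + c1 α β w ![1, t] = 0 := by
    rw [hs, sl]
    field_simp
    ring
  have hq1 : (qt α β w t).1 = mm α β w ![1, t] s 1 := by rw [hs]; rfl
  have hq2 : (qt α β w t).2 = tay (gq α β w ![1, t]) s := by rw [hs]; rfl
  obtain ⟨t0, -, -, -⟩ := scb_tay α β w t s hs'
  have h4 : (4 : F) ≠ 0 := by
    rw [show (4 : F) = 2 * 2 by norm_num]
    exact mul_ne_zero h2 h2
  have hg : (gp (qt α β w t) x).eval τ = -(qt α β w t).1 +
      -((qt α β w t).2 0) / (2 * (qt α β w t).1) * τ + x / (2 * (qt α β w t).1) * τ ^ 2 := by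
    simp [gp]
  rw [← hs]
  by_cases hτ : τ = 0
  · have hY : (gp (qt α β w t) x).eval τ ≠ (qt α β w t).1 := by
      rw [hg, hτ]
      intro h
      have : 2 * (qt α β w t).1 = 0 := by linear_combination -h
      exact mul_ne_zero h2 hm0 this
    refine ⟨-(qt α β w t).1, neg_ne_zero.2 hm0, fun j => ?_⟩
    rw [ph, if_pos hτ, if_neg hY, p1, ← hs, hτ]
    fin_cases j
    · simp
      field_simp
      ring
    · simp
      field_simp
    · simp
      field_simp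
      ring
  · refine ⟨-2 * (cw α w ![1, t] * τ), mul_ne_zero (neg_ne_zero.2 h2) (mul_ne_zero hcw hτ), ?_⟩
    have hdn : dn α β w t τ ((gp (qt α β w t) x).eval τ) =
        2 * (cw α w ![1, t] * τ) * (nn α β s 1 - k * τ) / (qt α β w t).1 := by
      rw [dn, hg, ← hs, hk, hq2, t0, hq1]
      rw [hq1] at hm0
      have hM : mm α β w ![1, t] (s + τ) 1 = mm α β w ![1, t] s 1 +
          (6 * w * s + (α 1 + 2 * α 2 * t)) * τ + 3 * w * τ ^ 2 := by
        simp [mm]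
        ring
      rw [hM]
      obtain ⟨m0, h⟩ : ∃ l, l = mm α β w ![1, t] s 1 := ⟨_, rfl⟩
      rw [← h] at hm0 ⊢
      obtain ⟨c, h⟩ : ∃ l, l = cw α w ![1, t] := ⟨_, rfl⟩
      rw [← h] at hcw ⊢
      obtain ⟨n0, h⟩ : ∃ l, l = nn α β s 1 := ⟨_, rfl⟩
      rw [← h]
      obtain ⟨m1, h⟩ : ∃ l, l = 6 * w * s + (α 1 + 2 * α 2 * t) := ⟨_, rfl⟩
      rw [← h]
      field_simp
      ring
    intro j
    rw [ph, if_neg hτ, hdn, ← hs]
    fin_cases j
    · simp
      field_simp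
      ring
    · simp
      field_simp
      ring
    · simp
      field_simp
      ring

theorem scb_li (w t s n k m0 : F) : LinearIndependent F
    ![![-n / m0 * w + s, -n / m0, -n / m0 * t + 1], ![k / m0 * w + 1, k / m0, k / m0 * t]] := by
  rw [LinearIndependent.pair_iff]
  intro a b h
  have e0 := congrFun h 0
  have e1 := congrFun h 1
  have e2 := congrFun h 2
  simp at e0 e1 e2
  have ha : a = 0 := by linear_combination e2 - t * e1
  subst ha
  refine ⟨rfl, ?_⟩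
  linear_combination e0 - w * e1

theorem scb_fin (α : Fin 3 → F) (β : Fin 4 → F) (w t : F) (h2 : (2 : F) ≠ 0)
    (h0 : cub α β w ![1, t] = 0) (hcw : cw α w ![1, t] ≠ 0) (hm0 : (qt α β w t).1 ≠ 0)
    (x G2 G3 G4 : F) (hG : gp (qt α β w t) x ^ 2 - qp (qt α β w t) =
      C G2 * X ^ 2 + C G3 * X ^ 3 + C G4 * X ^ 4) (k : F)
    (hk : k = -(x + 2 * (qt α β w t).1 * (3 * w)) / (4 * cw α w ![1, t])) (l m : F) :
    4 * cw α w ![1, t] * cub α β
      (l * ![-nn α β (sl α β w t) 1 / (qt α β w t).1 * w + sl α β w t,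
        -nn α β (sl α β w t) 1 / (qt α β w t).1,
        -nn α β (sl α β w t) 1 / (qt α β w t).1 * t + 1] 0 +
        m * ![k / (qt α β w t).1 * w + 1, k / (qt α β w t).1, k / (qt α β w t).1 * t] 0)
      ![l * ![-nn α β (sl α β w t) 1 / (qt α β w t).1 * w + sl α β w t,
        -nn α β (sl α β w t) 1 / (qt α β w t).1,
        -nn α β (sl α β w t) 1 / (qt α β w t).1 * t + 1] 1 +
        m * ![k / (qt α β w t).1 * w + 1, k / (qt α β w t).1, k / (qt α β w t).1 * t] 1,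
        l * ![-nn α β (sl α β w t) 1 / (qt α β w t).1 * w + sl α β w t,
        -nn α β (sl α β w t) 1 / (qt α β w t).1,
        -nn α β (sl α β w t) 1 / (qt α β w t).1 * t + 1] 2 +
        m * ![k / (qt α β w t).1 * w + 1, k / (qt α β w t).1, k / (qt α β w t).1 * t] 2] =
      m * (G2 * l ^ 2 + G3 * (l * m) + G4 * m ^ 2) := by
  rw [← scb_main α β w t h2 h0 hcw hm0 x G2 G3 G4 hG k hk l m]
  have e0 : l * ![-nn α β (sl α β w t) 1 / (qt α β w t).1 * w + sl α β w t,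
        -nn α β (sl α β w t) 1 / (qt α β w t).1,
        -nn α β (sl α β w t) 1 / (qt α β w t).1 * t + 1] 0 +
        m * ![k / (qt α β w t).1 * w + 1, k / (qt α β w t).1, k / (qt α β w t).1 * t] 0 =
      (k * m - nn α β (sl α β w t) 1 * l) / (qt α β w t).1 * w + (l * sl α β w t + m) := by
    simp only [Matrix.cons_val_zero]
    ring
  have e1 : l * ![-nn α β (sl α β w t) 1 / (qt α β w t).1 * w + sl α β w t,
        -nn α β (sl α β w t) 1 / (qt α β w t).1,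
        -nn α β (sl α β w t) 1 / (qt α β w t).1 * t + 1] 1 +
        m * ![k / (qt α β w t).1 * w + 1, k / (qt α β w t).1, k / (qt α β w t).1 * t] 1 =
      (k * m - nn α β (sl α β w t) 1 * l) / (qt α β w t).1 := by
    simp only [Matrix.cons_val_one, Matrix.cons_val_zero]
    ring
  have e2 : l * ![-nn α β (sl α β w t) 1 / (qt α β w t).1 * w + sl α β w t,
        -nn α β (sl α β w t) 1 / (qt α β w t).1,
        -nn α β (sl α β w t) 1 / (qt α β w t).1 * t + 1] 2 +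
        m * ![k / (qt α β w t).1 * w + 1, k / (qt α β w t).1, k / (qt α β w t).1 * t] 2 =
      (k * m - nn α β (sl α β w t) 1 * l) / (qt α β w t).1 * t + l := by
    simp only [Matrix.cons_val]
    ring
  rw [e0, e1, e2]

theorem scb_p1 (α : Fin 3 → F) (β : Fin 4 → F) (w t : F) (hm0 : (qt α β w t).1 ≠ 0) (k : F)
    (j : Fin 3) : p1 α β w t j = -(qt α β w t).1 * ![-nn α β (sl α β w t) 1 / (qt α β w t).1 * w +
        sl α β w t, -nn α β (sl α β w t) 1 / (qt α β w t).1,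
        -nn α β (sl α β w t) 1 / (qt α β w t).1 * t + 1] j +
      0 * ![k / (qt α β w t).1 * w + 1, k / (qt α β w t).1, k / (qt α β w t).1 * t] j := by
  rw [p1]
  fin_cases j
  · simp
    field_simp
    ring
  · simp
    field_simp
  · simp
    field_simp
    ring

end SCB

theorem scb : S_SCB := by
  intro F _ _ α β w t h0 hcw hm0
  have h2 : (2 : F) ≠ 0 := two_ne_zero
  have h4 : (4 : F) ≠ 0 := by norm_num
  constructor
  · intro x τ₁ τ₂ κ hκ hG
    obtain ⟨k, hk⟩ : ∃ k, k = -(x + 2 * (qt α β w t).1 * (3 * w)) / (4 * cw α w ![1, t]) := ⟨_, rfl⟩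
    have hG' : gp (qt α β w t) x ^ 2 - qp (qt α β w t) =
        C (κ * (τ₁ * τ₂)) * X ^ 2 + C (-κ * (τ₁ + τ₂)) * X ^ 3 + C κ * X ^ 4 := by
      rw [hG]
      simp only [C_mul, C_neg, C_add]
      ring
    obtain ⟨μ₁, hμ₁, hp₁⟩ := scb_pt α β w t h2 hcw hm0 x k hk τ₁
    obtain ⟨μ₂, hμ₂, hp₂⟩ := scb_pt α β w t h2 hcw hm0 x k hk τ₂
    refine ⟨_, _, ![-(qt α β w t).1, μ₁, μ₂], ![0, μ₁ * τ₁, μ₂ * τ₂],
      κ / (4 * cw α w ![1, t] * ((qt α β w t).1 * μ₁ * μ₂)),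
      scb_li w t (sl α β w t) (nn α β (sl α β w t) 1) k (qt α β w t).1,
      div_ne_zero hκ (mul_ne_zero (mul_ne_zero h4 hcw) (mul_ne_zero (mul_ne_zero hm0 hμ₁) hμ₂)),
      ?_, ?_, ?_⟩
    · intro i
      left
      fin_cases i
      · exact neg_ne_zero.2 hm0
      · exact hμ₁
      · exact hμ₂
    · intro i
      fin_cases i
      · intro j
        exact scb_p1 α β w t hm0 k j
      · exact hp₁
      · exact hp₂
    · intro l m
      have := scb_fin α β w t h2 h0 hcw hm0 x _ _ _ hG' k hk l m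
      refine mul_left_cancel₀ (mul_ne_zero h4 hcw) (this.trans ?_)
      simp only [Matrix.cons_val_zero, Matrix.cons_val_one, Matrix.cons_val]
      field_simp
      ring
  · intro x τ₁ κ hκ hG
    obtain ⟨k, hk⟩ : ∃ k, k = -(x + 2 * (qt α β w t).1 * (3 * w)) / (4 * cw α w ![1, t]) := ⟨_, rfl⟩
    have hG' : gp (qt α β w t) x ^ 2 - qp (qt α β w t) =
        C (-(κ * τ₁)) * X ^ 2 + C κ * X ^ 3 + C 0 * X ^ 4 := by
      rw [hG]
      simp only [C_mul, C_neg, C_0]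
      ring
    obtain ⟨μ₁, hμ₁, hp₁⟩ := scb_pt α β w t h2 hcw hm0 x k hk τ₁
    have hc : (x / (2 * (qt α β w t).1)) ^ 2 - (qt α β w t).2 3 = 0 :=
      (scb_coef ((scb_qp _ _ h2 hm0).symm.trans hG')).2.2
    have hq3 : (qt α β w t).2 3 = (3 * w) ^ 2 - 4 * cw α w ![1, t] := by
      show gq α β w ![1, t] 4 = _
      simp [gq]
    rw [hq3] at hc
    obtain ⟨c, hcx⟩ : ∃ c, c = x / (2 * (qt α β w t).1) := ⟨_, rfl⟩
    rw [← hcx] at hc ⊢
    have hx : x = 2 * (qt α β w t).1 * c := by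
      rw [hcx]
      field_simp
    have hc3 : c - 3 * w ≠ 0 := by
      intro h
      apply mul_ne_zero h4 hcw
      linear_combination -(c + 3 * w) * h + hc
    refine ⟨_, _, ![-(qt α β w t).1, μ₁, 0], ![0, μ₁ * τ₁, c - 3 * w],
      -(κ / (4 * cw α w ![1, t] * ((qt α β w t).1 * μ₁ * (c - 3 * w)))),
      scb_li w t (sl α β w t) (nn α β (sl α β w t) 1) k (qt α β w t).1,
      neg_ne_zero.2 (div_ne_zero hκ (mul_ne_zero (mul_ne_zero h4 hcw)
        (mul_ne_zero (mul_ne_zero hm0 hμ₁) hc3))),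
      ?_, ?_, ?_⟩
    · intro i
      fin_cases i
      · left
        exact neg_ne_zero.2 hm0
      · left
        exact hμ₁
      · right
        exact hc3
    · intro i
      fin_cases i
      · intro j
        exact scb_p1 α β w t hm0 k j
      · exact hp₁
      · intro j
        have hk' : k / (qt α β w t).1 * (c - 3 * w) = 2 := by
          rw [hk, hx]
          field_simp
          linear_combination -hc
        fin_cases j
        · simp [pf]
          linear_combination -w * hk'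
        · simp [pf]
          linear_combination -hk'
        · simp [pf]
          linear_combination -t * hk'
    · intro l m
      have := scb_fin α β w t h2 h0 hcw hm0 x _ _ _ hG' k hk l m
      refine mul_left_cancel₀ (mul_ne_zero h4 hcw) (this.trans ?_)
      simp only [Matrix.cons_val_zero, Matrix.cons_val_one, Matrix.cons_val]
      field_simp
      ring

end Pool.Agent.H66.ZK
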